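import Pool.Agent.Y462.EI.Stm

/-!
# EI-HH: the representation of an HNN extension in a wreath product

Owner helper936 (job 10132 for helper462).
-/

set_option autoImplicit false

namespace Pool.Agent.Y936.EI

open Pool.Agent.Y462.SS (Wr)
open Pool.Agent.Y462.EI

/-! ## the monomial representation -/

section mon

variable {K D : Type} [Group K] [Group D] (w : K →* D)

/-- a section of the cosets which is `1` at `1` -/
noncomputable def sc (x : D ⧸ w.range) : D := x.out * (((1 : D) : D ⧸ w.range).out)⁻¹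

lemma sc_one : sc w ((1 : D) : D ⧸ w.range) = 1 := mul_inv_cancel _

lemma sc_mk (x : D ⧸ w.range) : ((sc w x : D) : D ⧸ w.range) = x := by
  unfold sc
  have h : (((1 : D) : D ⧸ w.range).out)⁻¹ ∈ w.range := by
    apply inv_mem
    have h1 : ((1 : D) : D ⧸ w.range) = ((((1 : D) : D ⧸ w.range).out : D) : D ⧸ w.range) :=
      (QuotientGroup.out_eq' _).symm
    have h2 := QuotientGroup.eq.mp h1
    rwa [inv_one, one_mul] at h2
  rw [QuotientGroup.mk_mul_of_mem _ h]
  exact QuotientGroup.out_eq' _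

lemma sc_mem (d : D) (x : D ⧸ w.range) : (sc w (d • x))⁻¹ * (d * sc w x) ∈ w.range := by
  rw [← QuotientGroup.eq, sc_mk]
  have h : ((d * sc w x : D) : D ⧸ w.range) = d • ((sc w x : D) : D ⧸ w.range) := rfl
  rw [h, sc_mk]

variable {w}

/-- the sections of the monomial representation -/
noncomputable def ms (hw : Function.Injective w) (d : D) (x : D ⧸ w.range) : K :=
  (MonoidHom.ofInjective hw).symm ⟨_, sc_mem w d x⟩

lemma w_ms (hw : Function.Injective w) (d : D) (x : D ⧸ w.range) :
    w (ms hw d x) = (sc w (d • x))⁻¹ * (d * sc w x) :=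
  MonoidHom.apply_ofInjective_symm hw _

lemma ms_mul (hw : Function.Injective w) (d e : D) (x : D ⧸ w.range) :
    ms hw (d * e) x = ms hw d (e • x) * ms hw e x := by
  apply hw
  rw [map_mul, w_ms, w_ms, w_ms, mul_smul]
  group

lemma ms_one (hw : Function.Injective w) (x : D ⧸ w.range) : ms hw 1 x = 1 := by
  apply hw
  rw [w_ms, one_smul, one_mul, inv_mul_cancel, map_one]

lemma w_smul_one (c : K) : w c • ((1 : D) : D ⧸ w.range) = ((1 : D) : D ⧸ w.range) := by
  have h : w c • ((1 : D) : D ⧸ w.range) = ((w c * 1 : D) : D ⧸ w.range) := rfl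
  rw [h, mul_one, eq_comm, QuotientGroup.eq, inv_one, one_mul]
  exact ⟨c, rfl⟩

lemma ms_w (hw : Function.Injective w) (c : K) : ms hw (w c) ((1 : D) : D ⧸ w.range) = c := by
  apply hw
  rw [w_ms, w_smul_one, sc_one, inv_one, one_mul, mul_one]

end mon

/-! ## the HNN extension -/

section hnn

variable {M D : Type} [Group M] [Group D] {X Y : Type} [MulAction D X] [MulAction D Y]

/-- the index set -/
abbrev Ix (X Y : Type) : Type := Option ((X × ℕ) ⊕ (Y × ℕ))

/-- the permutation of an element of `D` on the index set -/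
def pX (d : D) : Ix X Y → Ix X Y
  | none => none
  | some (Sum.inl (z, n)) => some (Sum.inl (d • z, n))
  | some (Sum.inr (z, n)) => some (Sum.inr (d • z, n))

lemma pX_mul (d e : D) (i : Ix X Y) : pX (d * e) i = pX d (pX e i) := by
  rcases i with _ | ⟨z, n⟩ | ⟨z, n⟩
  · rfl
  · simp only [pX, mul_smul]
  · simp only [pX, mul_smul]

lemma pX_one (i : Ix X Y) : pX (1 : D) i = i := by
  rcases i with _ | ⟨z, n⟩ | ⟨z, n⟩
  · rfl
  · simp only [pX, one_smul]
  · simp only [pX, one_smul]

/-- the permutation as an equivalence -/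
def pXe (d : D) : Equiv.Perm (Ix X Y) where
  toFun := pX d
  invFun := pX d⁻¹
  left_inv i := by rw [← pX_mul, inv_mul_cancel, pX_one]
  right_inv i := by rw [← pX_mul, mul_inv_cancel, pX_one]

open Classical in
/-- a point of an infinite pile is taken away -/
noncomputable def down {Z : Type} (z0 z : Z) (n : ℕ) (f : Z × ℕ → Ix X Y) : Ix X Y :=
  if z = z0 then (match n with
    | 0 => none
    | n + 1 => f (z, n)) else f (z, n)

open Classical in
/-- a point of an infinite pile is added -/
noncomputable def up {Z : Type} (z0 z : Z) (n : ℕ) : ℕ := if z = z0 then n + 1 else n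

/-- the permutation of the stable letter -/
noncomputable def tp (x0 : X) (y0 : Y) (d : D) : Ix X Y → Ix X Y
  | none => some (Sum.inl (d • x0, 0))
  | some (Sum.inl (z, n)) => some (Sum.inl (d • z, up x0 z n))
  | some (Sum.inr (z, n)) => down y0 (d • z) n (fun p => some (Sum.inr p))

/-- its inverse -/
noncomputable def tq (x0 : X) (y0 : Y) (d : D) : Ix X Y → Ix X Y
  | none => some (Sum.inr (d⁻¹ • y0, 0))
  | some (Sum.inl (z, n)) => down x0 (d⁻¹ • z) n (fun p => some (Sum.inl p))
  | some (Sum.inr (z, n)) => some (Sum.inr (d⁻¹ • z, up y0 z n))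

lemma tq_tp (x0 : X) (y0 : Y) (d : D) (i : Ix X Y) : tq x0 y0 d (tp x0 y0 d i) = i := by
  rcases i with _ | ⟨z, n⟩ | ⟨z, n⟩
  · simp only [tp, tq, inv_smul_smul, down, if_true]
  · by_cases h : z = x0
    · simp only [tp, tq, inv_smul_smul, down, up, h, if_true]
    · simp only [tp, tq, inv_smul_smul, down, up, h, if_false]
  · by_cases h : d • z = y0
    · rcases n with _ | n
      · simp only [tp, tq, down, h, if_true]
        rw [← h, inv_smul_smul]
      · simp only [tp, tq, down, up, h, if_true]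
        rw [← h, inv_smul_smul]
    · simp only [tp, tq, down, up, h, if_false, inv_smul_smul]

lemma tp_tq (x0 : X) (y0 : Y) (d : D) (i : Ix X Y) : tp x0 y0 d (tq x0 y0 d i) = i := by
  rcases i with _ | ⟨z, n⟩ | ⟨z, n⟩
  · simp only [tp, tq, smul_inv_smul, down, if_true]
  · by_cases h : d⁻¹ • z = x0
    · rcases n with _ | n
      · simp only [tp, tq, down, h, if_true]
        rw [← h, smul_inv_smul]
      · simp only [tp, tq, down, up, h, if_true]
        rw [← h, smul_inv_smul]
    · simp only [tp, tq, down, up, h, if_false, smul_inv_smul]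
  · by_cases h : z = y0
    · simp only [tp, tq, smul_inv_smul, down, up, h, if_true]
    · simp only [tp, tq, smul_inv_smul, down, up, h, if_false]

/-- the permutation of the stable letter as an equivalence -/
noncomputable def tpe (x0 : X) (y0 : Y) (d : D) : Equiv.Perm (Ix X Y) where
  toFun := tp x0 y0 d
  invFun := tq x0 y0 d
  left_inv := tq_tp x0 y0 d
  right_inv := tp_tq x0 y0 d

lemma tp_pX (x0 : X) (y0 : Y) (d e f : D) (h : d * e = f * d) (hx : e • x0 = x0)
    (hy : f • y0 = y0) (i : Ix X Y) : tp x0 y0 d (pX e i) = pX f (tp x0 y0 d i) := by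
  rcases i with _ | ⟨z, n⟩ | ⟨z, n⟩
  · simp only [tp, pX]
    rw [← mul_smul, ← h, mul_smul, hx]
  · have h1 : e • z = x0 ↔ z = x0 :=
      ⟨fun hh => by rw [← inv_smul_smul e z, hh, inv_smul_eq_iff, hx], fun hh => by rw [hh, hx]⟩
    have h3 : d • e • z = f • d • z := by rw [← mul_smul, h, mul_smul]
    by_cases h2 : z = x0
    · subst h2
      simp only [tp, pX, up, hx, if_true]
      rw [h3.symm.trans (by rw [hx])]
    · have h4 : ¬ e • z = x0 := fun hh => h2 (h1.mp hh)
      simp only [tp, pX, up, h4, h2, if_false]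
      rw [h3]
  · have h3 : d • e • z = f • d • z := by rw [← mul_smul, h, mul_smul]
    by_cases h2 : d • z = y0
    · have h4 : d • e • z = y0 := by rw [h3, h2, hy]
      rcases n with _ | n
      · simp only [tp, pX, down, h4, h2, if_true]
      · simp only [tp, pX, down, h4, h2, if_true]
        rw [hy]
    · have h4 : ¬ d • e • z = y0 := fun hh => h2 (by
        rw [← inv_smul_smul f (d • z), ← h3, hh, inv_smul_eq_iff, hy])
      simp only [tp, pX, down, h4, h2, if_false]
      rw [h3]

/-- the sections -/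
def sX (m : M) (a : X → M) (b : Y → M) : Ix X Y → M
  | none => m
  | some (Sum.inl (z, _)) => a z
  | some (Sum.inr (z, _)) => b z

end hnn

section rep

variable {M D K L : Type} [Group M] [Group D] [Group K] [Group L] {wA : K →* D} {wB : L →* D}
  (hwA : Function.Injective wA) (hwB : Function.Injective wB) (ι : K →* M) (κ : L →* M)
  (u : M →* D)

/-- the images of the elements of `M` -/
noncomputable def XX : M →* Wr (Ix (D ⧸ wA.range) (D ⧸ wB.range)) M where
  toFun := fun m => ⟨sX m (fun z => ι (ms hwA (u m) z)) (fun z => κ (ms hwB (u m) z)), pXe (u m)⟩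
  map_one' := by
    apply Wr.ext
    · funext i
      rcases i with _ | ⟨z, n⟩ | ⟨z, n⟩
      · rfl
      · change ι (ms hwA (u 1) z) = 1
        rw [map_one, ms_one, map_one]
      · change κ (ms hwB (u 1) z) = 1
        rw [map_one, ms_one, map_one]
    · apply Equiv.ext
      intro i
      change pX (u 1) i = i
      rw [map_one, pX_one]
  map_mul' := fun m m' => by
    apply Wr.ext
    · funext i
      rcases i with _ | ⟨z, n⟩ | ⟨z, n⟩
      · rfl
      · change ι (ms hwA (u (m * m')) z) = ι (ms hwA (u m) (u m' • z)) * ι (ms hwA (u m') z)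
        rw [map_mul, ms_mul, map_mul]
      · change κ (ms hwB (u (m * m')) z) = κ (ms hwB (u m) (u m' • z)) * κ (ms hwB (u m') z)
        rw [map_mul, ms_mul, map_mul]
    · apply Equiv.ext
      intro i
      change pX (u (m * m')) i = pX (u m) (pX (u m') i)
      rw [map_mul, pX_mul]

/-- the image of the stable letter -/
noncomputable def TT (τ : D) : Wr (Ix (D ⧸ wA.range) (D ⧸ wB.range)) M :=
  ⟨sX (ι (ms hwA τ ((1 : D) : D ⧸ wA.range))) (fun z => ι (ms hwA τ z))
    (fun z => κ (ms hwB τ z)),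
    tpe ((1 : D) : D ⧸ wA.range) ((1 : D) : D ⧸ wB.range) τ⟩

lemma TT_mul (hι : ∀ a, u (ι a) = wA a) (hκ : ∀ b, u (κ b) = wB b) (τ : D) (a : K) (b : L)
    (h : τ * wA a = wB b * τ) :
    TT hwA hwB ι κ τ * XX hwA hwB ι κ u (ι a) = XX hwA hwB ι κ u (κ b) * TT hwA hwB ι κ τ := by
  have hx : wA a • ((1 : D) : D ⧸ wA.range) = ((1 : D) : D ⧸ wA.range) := w_smul_one a
  have hy : wB b • ((1 : D) : D ⧸ wB.range) = ((1 : D) : D ⧸ wB.range) := w_smul_one b
  have hxs : ms hwA (wA a) ((1 : D) : D ⧸ wA.range) = a := ms_w hwA a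
  have hys : ms hwB (wB b) ((1 : D) : D ⧸ wB.range) = b := ms_w hwB b
  have hA1 : ∀ z, ι (ms hwA τ (wA a • z)) * ι (ms hwA (wA a) z) =
      ι (ms hwA (wB b) (τ • z)) * ι (ms hwA τ z) := by
    intro z
    rw [← map_mul, ← map_mul, ← ms_mul, ← ms_mul, h]
  have hB1 : ∀ z, κ (ms hwB τ (wA a • z)) * κ (ms hwB (wA a) z) =
      κ (ms hwB (wB b) (τ • z)) * κ (ms hwB τ z) := by
    intro z
    rw [← map_mul, ← map_mul, ← ms_mul, ← ms_mul, h]
  have hX1 : XX hwA hwB ι κ u (ι a) = ⟨sX (ι a) (fun z => ι (ms hwA (wA a) z))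
      (fun z => κ (ms hwB (wA a) z)), pXe (wA a)⟩ := by
    rw [← hι a]
    rfl
  have hX2 : XX hwA hwB ι κ u (κ b) = ⟨sX (κ b) (fun z => ι (ms hwA (wB b) z))
      (fun z => κ (ms hwB (wB b) z)), pXe (wB b)⟩ := by
    rw [← hκ b]
    rfl
  rw [hX1, hX2]
  apply Wr.ext
  · funext i
    rcases i with _ | ⟨z, n⟩ | ⟨z, n⟩
    · have h2 := hA1 ((1 : D) : D ⧸ wA.range)
      rw [hx, hxs] at h2
      exact h2
    · exact hA1 z
    · refine (hB1 z).trans ?_
      rw [Wr.mul_s]
      by_cases h3 : τ • z = ((1 : D) : D ⧸ wB.range)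
      · rcases n with _ | n
        · have h4 : (TT hwA hwB ι κ τ).p (some (Sum.inr (z, 0))) = none := by
            change tp ((1 : D) : D ⧸ wA.range) ((1 : D) : D ⧸ wB.range) τ (some (Sum.inr (z, 0))) = none
            simp only [tp, down, h3, if_true]
          rw [h4, h3, hys]
          rfl
        · have h4 : (TT hwA hwB ι κ τ).p (some (Sum.inr (z, n + 1))) =
              some (Sum.inr (τ • z, n)) := by
            change tp ((1 : D) : D ⧸ wA.range) ((1 : D) : D ⧸ wB.range) τ
              (some (Sum.inr (z, n + 1))) = _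
            simp only [tp, down, h3, if_true]
          rw [h4]
          rfl
      · have h4 : (TT hwA hwB ι κ τ).p (some (Sum.inr (z, n))) = some (Sum.inr (τ • z, n)) := by
          change tp ((1 : D) : D ⧸ wA.range) ((1 : D) : D ⧸ wB.range) τ (some (Sum.inr (z, n))) = _
          simp only [tp, down, h3, if_false]
        rw [h4]
        rfl
  · apply Equiv.ext
    intro i
    exact tp_pX _ _ τ (wA a) (wB b) h hx hy i

lemma XX_inj (m : M) (h : XX hwA hwB ι κ u m = 1) : m = 1 := congrFun (congrArg Wr.s h) none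

lemma XX_fin (m : M) (h : u m = 1) : Fin1 (XX hwA hwB ι κ u m) := by
  refine ⟨?_, (Set.finite_singleton none).subset ?_⟩
  · apply Equiv.ext
    intro i
    change pX (u m) i = i
    rw [h, pX_one]
  · intro i hi
    rcases i with _ | ⟨z, n⟩ | ⟨z, n⟩
    · rfl
    · exfalso
      apply hi
      change ι (ms hwA (u m) z) = 1
      rw [h, ms_one, map_one]
    · exfalso
      apply hi
      change κ (ms hwB (u m) z) = 1
      rw [h, ms_one, map_one]

include hwA hwB in
theorem rep (hι : ∀ a, u (ι a) = wA a) (hκ : ∀ b, u (κ b) = wB b) (τ : D) :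
    ∃ (I : Type) (X : M →* Wr I M) (T : Wr I M),
      (∀ (a : K) (b : L), τ * wA a = wB b * τ → T * X (ι a) = X (κ b) * T) ∧
      (∀ m, X m = 1 → m = 1) ∧ ∀ m, u m = 1 → Fin1 (X m) :=
  ⟨_, XX hwA hwB ι κ u, TT hwA hwB ι κ τ, TT_mul hwA hwB ι κ u hι hκ τ, XX_inj hwA hwB ι κ u,
    XX_fin hwA hwB ι κ u⟩

end rep

theorem t_hh : S_HH := by
  intro M D _ _ A B φ u τ hτ hA
  have hwA : Function.Injective (u.comp A.subtype) := by
    rw [injective_iff_map_eq_one]
    intro a ha
    exact Subtype.ext (hA a a.2 ha)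
  have hwB : Function.Injective (u.comp B.subtype) := by
    rw [injective_iff_map_eq_one]
    intro b hb
    obtain ⟨a, rfl⟩ := φ.surjective b
    have h1 : u (φ a : M) = 1 := hb
    have h2 := hτ a
    rw [h1, one_mul] at h2
    have h3 : u (a : M) = 1 := mul_left_cancel (h2.trans (mul_one τ).symm)
    have h4 : a = 1 := Subtype.ext (hA a a.2 h3)
    rw [h4, map_one]
  obtain ⟨I, X, T, h1, h2, h3⟩ := rep hwA hwB A.subtype B.subtype u (fun _ => rfl)
    (fun _ => rfl) τ
  have h4 : ∀ a : A, T * X (a : M) = X (φ a : M) * T := fun a => h1 a (φ a) (hτ a)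
  have h5 : ∀ m : M, HNNExtension.lift X T h4 (HNNExtension.of m) = X m :=
    fun m => HNNExtension.lift_of X T h4 m
  refine ⟨I, HNNExtension.lift X T h4, fun m hm => h2 m ((h5 m).symm.trans hm), fun m hm => ?_⟩
  exact (congrArg Fin1 (h5 m)).mpr (h3 m hm)

end Pool.Agent.Y936.EI
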